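import Pool.Agent.K1H81.DC.Stm

/-!
Project DC, piece PERT: perturbation of a polynomial.
-/

set_option autoImplicit false

namespace Pool.Agent.K1H3.DC

open Finset
open Pool.Agent.K1H81.HV (WD)

section wd

variable {r : ℕ}

lemma WD.mono {D D' : ℕ} {φ : MvPolynomial (Fin r) ℝ} (h : WD D φ) (hD : D ≤ D') : WD D' φ :=
  fun α hα => (h α hα).trans hD

lemma WD.add {D : ℕ} {φ ψ : MvPolynomial (Fin r) ℝ} (h : WD D φ) (h' : WD D ψ) :
    WD D (φ + ψ) := by
  classical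
  intro α hα
  rcases Finset.mem_union.1 (MvPolynomial.support_add hα) with h1 | h1
  · exact h α h1
  · exact h' α h1

lemma WD_zero (D : ℕ) : WD D (0 : MvPolynomial (Fin r) ℝ) := by
  intro α hα
  simp at hα

lemma WD_sum {ι : Type} (s : Finset ι) (f : ι → MvPolynomial (Fin r) ℝ) (D : ℕ)
    (h : ∀ i ∈ s, WD D (f i)) : WD D (∑ i ∈ s, f i) := by
  classical
  induction s using Finset.induction_on with
  | empty => simpa using WD_zero D
  | insert a s ha ih =>
    rw [Finset.sum_insert ha]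
    exact WD.add (h a (Finset.mem_insert_self a s))
      (ih (fun i hi => h i (Finset.mem_insert_of_mem hi)))

lemma WD_C (c : ℝ) : WD 0 (MvPolynomial.C c : MvPolynomial (Fin r) ℝ) := by
  classical
  intro α hα
  have h1 : α = 0 := by
    have h2 : MvPolynomial.coeff α (MvPolynomial.C c : MvPolynomial (Fin r) ℝ) ≠ 0 :=
      MvPolynomial.mem_support_iff.1 hα
    rw [MvPolynomial.coeff_C] at h2
    by_contra h3
    exact h2 (if_neg (Ne.symm h3))
  simp [h1]

lemma WD_X (i : Fin r) : WD ((i : ℕ) + 1) (MvPolynomial.X i : MvPolynomial (Fin r) ℝ) := by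
  classical
  intro α hα
  have h1 : α = Finsupp.single i 1 := by
    have h2 : MvPolynomial.coeff α (MvPolynomial.X i : MvPolynomial (Fin r) ℝ) ≠ 0 :=
      MvPolynomial.mem_support_iff.1 hα
    rw [MvPolynomial.coeff_X'] at h2
    by_contra h3
    exact h2 (if_neg (Ne.symm h3))
  rw [h1, Finset.sum_eq_single i]
  · simp
  · intro j _ hj
    rw [Finsupp.single_eq_of_ne hj]
    simp
  · simp

lemma WD_prod {ι : Type} (s : Finset ι) (f : ι → MvPolynomial (Fin r) ℝ) (D : ι → ℕ)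
    (h : ∀ i ∈ s, WD (D i) (f i)) : WD (∑ i ∈ s, D i) (∏ i ∈ s, f i) := by
  classical
  induction s using Finset.induction_on with
  | empty =>
    simp only [Finset.sum_empty, Finset.prod_empty]
    have := WD_C (r := r) 1
    rwa [map_one] at this
  | insert a s ha ih =>
    rw [Finset.sum_insert ha, Finset.prod_insert ha]
    exact Pool.Agent.K1H81.HV.WD.mul (h a (Finset.mem_insert_self a s))
      (ih (fun i hi => h i (Finset.mem_insert_of_mem hi)))

/-- the majorant of a monomial -/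
noncomputable def GG (c : ℝ) (k : ℕ) (α : Fin r →₀ ℕ) : MvPolynomial (Fin r) ℝ :=
  ∏ i : Fin r, (MvPolynomial.C c + MvPolynomial.C c * MvPolynomial.X i ^ k) ^ α i

lemma WD_GG (c : ℝ) (k D : ℕ) (α : Fin r →₀ ℕ) (h : ∑ i : Fin r, ((i : ℕ) + 1) * α i ≤ D) :
    WD (k * D) (GG c k α) := by
  have h1 : WD (∑ i : Fin r, α i * (0 + k * ((i : ℕ) + 1))) (GG c k α) := by
    apply WD_prod
    intro i _
    apply Pool.Agent.K1H81.HV.WD.pow
    apply WD.add
    · exact WD.mono (WD_C c) (Nat.zero_le _)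
    · exact Pool.Agent.K1H81.HV.WD.mul (WD_C c) (Pool.Agent.K1H81.HV.WD.pow (WD_X i) k)
  refine WD.mono h1 ?_
  calc ∑ i : Fin r, α i * (0 + k * ((i : ℕ) + 1)) = k * ∑ i : Fin r, ((i : ℕ) + 1) * α i := by
        rw [Finset.mul_sum]
        apply Finset.sum_congr rfl
        intro i _
        ring
    _ ≤ k * D := Nat.mul_le_mul_left k h

lemma eval_GG (c : ℝ) (k : ℕ) (α : Fin r →₀ ℕ) (y : Fin r → ℝ) :
    MvPolynomial.eval y (GG c k α) = ∏ i : Fin r, (c + c * y i ^ k) ^ α i := by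
  unfold GG
  simp

end wd

lemma pow_diff {x y W : ℝ} (hW : 1 ≤ W) (hx : |x| ≤ W) (hy : |y| ≤ W) (a : ℕ) :
    |x ^ a - y ^ a| ≤ a * |x - y| * W ^ a := by
  have hW0 : 0 ≤ W := by linarith
  induction a with
  | zero => simp
  | succ a ih =>
    have e : x ^ (a + 1) - y ^ (a + 1) = x * (x ^ a - y ^ a) + (x - y) * y ^ a := by ring
    rw [e]
    refine (abs_add_le _ _).trans ?_
    rw [abs_mul, abs_mul, abs_pow]
    have h1 : |x| * |x ^ a - y ^ a| ≤ W * (a * |x - y| * W ^ a) :=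
      mul_le_mul hx ih (abs_nonneg _) hW0
    have h2 : |y| ^ a ≤ W ^ (a + 1) :=
      (pow_le_pow_left₀ (abs_nonneg _) hy a).trans (pow_le_pow_right₀ hW (Nat.le_succ a))
    have h3 : |x - y| * |y| ^ a ≤ |x - y| * W ^ (a + 1) :=
      mul_le_mul_of_nonneg_left h2 (abs_nonneg _)
    have h4 : W * (a * |x - y| * W ^ a) + |x - y| * W ^ (a + 1) =
        ((a + 1 : ℕ) : ℝ) * |x - y| * W ^ (a + 1) := by
      push_cast
      ring
    linarith

lemma prod_diff {ι : Type} [DecidableEq ι] (s : Finset ι) (u v w k : ι → ℝ) (η : ℝ) (hη : 0 ≤ η)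
    (hk : ∀ i, 0 ≤ k i) (hu : ∀ i, |u i| ≤ w i) (hv : ∀ i, |v i| ≤ w i)
    (hd : ∀ i, |u i - v i| ≤ η * k i * w i) :
    |∏ i ∈ s, u i - ∏ i ∈ s, v i| ≤ η * (∑ i ∈ s, k i) * ∏ i ∈ s, w i := by
  have hw : ∀ i, 0 ≤ w i := fun i => (abs_nonneg _).trans (hu i)
  induction s using Finset.induction_on with
  | empty => simp
  | insert a s ha ih =>
    rw [Finset.prod_insert ha, Finset.prod_insert ha, Finset.prod_insert ha, Finset.sum_insert ha]
    have e : u a * ∏ i ∈ s, u i - v a * ∏ i ∈ s, v i =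
        (u a - v a) * ∏ i ∈ s, u i + v a * (∏ i ∈ s, u i - ∏ i ∈ s, v i) := by ring
    rw [e]
    refine (abs_add_le _ _).trans ?_
    rw [abs_mul, abs_mul]
    have h1 : |∏ i ∈ s, u i| ≤ ∏ i ∈ s, w i := by
      rw [Finset.abs_prod]
      exact Finset.prod_le_prod (fun i _ => abs_nonneg _) (fun i _ => hu i)
    have h2 : |u a - v a| * |∏ i ∈ s, u i| ≤ (η * k a * w a) * ∏ i ∈ s, w i :=
      mul_le_mul (hd a) h1 (abs_nonneg _)
        (mul_nonneg (mul_nonneg hη (hk a)) (hw a))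
    have h3 : |v a| * |∏ i ∈ s, u i - ∏ i ∈ s, v i| ≤
        w a * (η * (∑ i ∈ s, k i) * ∏ i ∈ s, w i) :=
      mul_le_mul (hv a) ih (abs_nonneg _) (hw a)
    have h4 : (η * k a * w a) * ∏ i ∈ s, w i + w a * (η * (∑ i ∈ s, k i) * ∏ i ∈ s, w i) =
        η * (k a + ∑ i ∈ s, k i) * (w a * ∏ i ∈ s, w i) := by ring
    linarith

/-- the constant of a monomial -/
noncomputable def kap {r : ℕ} (B : ℝ) (α : Fin r →₀ ℕ) : ℝ :=
  (∑ i : Fin r, (α i : ℝ) * B) * ∏ i : Fin r, (1 + B) ^ α i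

lemma kap_nonneg {r : ℕ} {B : ℝ} (hB : 0 ≤ B) (α : Fin r →₀ ℕ) : 0 ≤ kap B α := by
  unfold kap
  positivity

lemma mono_diff {r : ℕ} {B η : ℝ} (hB : 0 ≤ B) (hη : 0 ≤ η) (hη1 : η ≤ 1) (x y : Fin r → ℝ)
    (h : ∀ i, |x i - y i| ≤ B * η) (α : Fin r →₀ ℕ) :
    |∏ i, x i ^ α i - ∏ i, y i ^ α i| ≤ η * (kap B α * ∏ i, (1 + |y i|) ^ α i) := by
  have hW : ∀ i, 1 ≤ (1 + B) * (1 + |y i|) := fun i => by
    have := abs_nonneg (y i)
    nlinarith [mul_nonneg hB this]
  have hy : ∀ i, |y i| ≤ (1 + B) * (1 + |y i|) := fun i => by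
    have := abs_nonneg (y i)
    nlinarith [mul_nonneg hB this]
  have hx : ∀ i, |x i| ≤ (1 + B) * (1 + |y i|) := fun i => by
    have h0 := abs_nonneg (y i)
    have h1 : |x i| ≤ |x i - y i| + |y i| := by
      have := abs_add_le (x i - y i) (y i)
      rwa [sub_add_cancel] at this
    have h2 : B * η ≤ B := by nlinarith
    have := h i
    nlinarith [mul_nonneg hB h0]
  have key := prod_diff (Finset.univ : Finset (Fin r)) (fun i => x i ^ α i) (fun i => y i ^ α i)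
    (fun i => ((1 + B) * (1 + |y i|)) ^ α i) (fun i => (α i : ℝ) * B) η hη
    (fun i => by positivity)
    (fun i => by
      rw [abs_pow]
      exact pow_le_pow_left₀ (abs_nonneg _) (hx i) _)
    (fun i => by
      rw [abs_pow]
      exact pow_le_pow_left₀ (abs_nonneg _) (hy i) _)
    (fun i => by
      refine (pow_diff (hW i) (hx i) (hy i) (α i)).trans ?_
      have h0 : 0 ≤ ((1 + B) * (1 + |y i|)) ^ α i := pow_nonneg (by linarith [hW i]) _
      apply mul_le_mul_of_nonneg_right _ h0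
      have h1 : (α i : ℝ) * |x i - y i| ≤ (α i : ℝ) * (B * η) :=
        mul_le_mul_of_nonneg_left (h i) (Nat.cast_nonneg _)
      linarith)
  refine key.trans (le_of_eq ?_)
  unfold kap
  simp only [mul_pow, Finset.prod_mul_distrib]
  ring

lemma eval_diff {r : ℕ} (φ : MvPolynomial (Fin r) ℝ) {B η : ℝ} (hB : 0 ≤ B) (hη : 0 ≤ η)
    (hη1 : η ≤ 1) (x y : Fin r → ℝ) (h : ∀ i, |x i - y i| ≤ B * η) :
    |MvPolynomial.eval x φ - MvPolynomial.eval y φ| ≤
      ∑ α ∈ φ.support, η * (|φ.coeff α| * kap B α * ∏ i, (1 + |y i|) ^ α i) := by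
  rw [MvPolynomial.eval_eq', MvPolynomial.eval_eq', ← Finset.sum_sub_distrib]
  refine (Finset.abs_sum_le_sum_abs _ _).trans ?_
  apply Finset.sum_le_sum
  intro α _
  rw [← mul_sub, abs_mul]
  have h1 := mul_le_mul_of_nonneg_left (mono_diff hB hη hη1 x y h α) (abs_nonneg (φ.coeff α))
  refine h1.trans (le_of_eq ?_)
  ring

theorem t_PERT : Pool.Agent.K1H81.DC.S_PERT := by
  intro r D φ hφ B hB
  classical
  refine ⟨⟨∑ α ∈ φ.support, MvPolynomial.C (|φ.coeff α| * kap B α) * GG 2 2 α, ?_, ?_⟩,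
    ⟨∑ α ∈ φ.support, MvPolynomial.C ((φ.support.card : ℝ) ^ 3 * (|φ.coeff α| * kap B α) ^ 4) *
      GG 8 4 α, ?_, ?_⟩⟩
  · apply WD_sum
    intro α hα
    have := Pool.Agent.K1H81.HV.WD.mul (WD_C (r := r) (|φ.coeff α| * kap B α))
      (WD_GG 2 2 D α (hφ α hα))
    exact WD.mono this (by omega)
  · intro x y η hη hη1 h
    refine (eval_diff φ hB hη hη1 x y h).trans ?_
    rw [map_sum, Finset.mul_sum]
    apply Finset.sum_le_sum
    intro α _
    rw [map_mul, MvPolynomial.eval_C, eval_GG]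
    apply mul_le_mul_of_nonneg_left _ hη
    apply mul_le_mul_of_nonneg_left _ (mul_nonneg (abs_nonneg _) (kap_nonneg hB α))
    apply Finset.prod_le_prod
    · intro i _
      positivity
    · intro i _
      apply pow_le_pow_left₀ (by positivity)
      have h1 : |y i| ^ 2 = y i ^ 2 := sq_abs _
      have h2 := abs_nonneg (y i)
      nlinarith
  · apply WD_sum
    intro α hα
    have := Pool.Agent.K1H81.HV.WD.mul
      (WD_C (r := r) ((φ.support.card : ℝ) ^ 3 * (|φ.coeff α| * kap B α) ^ 4))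
      (WD_GG 8 4 D α (hφ α hα))
    exact WD.mono this (by omega)
  · intro x y η hη hη1 h
    have h1 := eval_diff φ hB hη hη1 x y h
    set f : (Fin r →₀ ℕ) → ℝ := fun α => η * (|φ.coeff α| * kap B α * ∏ i, (1 + |y i|) ^ α i)
      with hf
    set S := ∑ α ∈ φ.support, f α with hS
    have hn : (0 : ℝ) ≤ φ.support.card := Nat.cast_nonneg _
    have h2 : (MvPolynomial.eval x φ - MvPolynomial.eval y φ) ^ 4 ≤ S ^ 4 := by
      have := pow_le_pow_left₀ (abs_nonneg _) h1 4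
      have e : |MvPolynomial.eval x φ - MvPolynomial.eval y φ| ^ 4 =
          (MvPolynomial.eval x φ - MvPolynomial.eval y φ) ^ 4 := by
        rw [show (4 : ℕ) = 2 * 2 from rfl, pow_mul, pow_mul, sq_abs]
      rwa [e] at this
    have h3 : S ^ 2 ≤ φ.support.card * ∑ α ∈ φ.support, f α ^ 2 := sq_sum_le_card_mul_sum_sq
    have h4 : (∑ α ∈ φ.support, f α ^ 2) ^ 2 ≤ φ.support.card * ∑ α ∈ φ.support, (f α ^ 2) ^ 2 :=
      sq_sum_le_card_mul_sum_sq
    have h5 : S ^ 4 ≤ (φ.support.card : ℝ) ^ 3 * ∑ α ∈ φ.support, (f α ^ 2) ^ 2 := by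
      have a1 : S ^ 4 = (S ^ 2) ^ 2 := by ring
      have a2 : (S ^ 2) ^ 2 ≤ (φ.support.card * ∑ α ∈ φ.support, f α ^ 2) ^ 2 :=
        pow_le_pow_left₀ (sq_nonneg _) h3 2
      have a3 := mul_le_mul_of_nonneg_left h4 (sq_nonneg (φ.support.card : ℝ))
      calc S ^ 4 = (S ^ 2) ^ 2 := a1
        _ ≤ (φ.support.card * ∑ α ∈ φ.support, f α ^ 2) ^ 2 := a2
        _ = (φ.support.card : ℝ) ^ 2 * (∑ α ∈ φ.support, f α ^ 2) ^ 2 := by ring
        _ ≤ (φ.support.card : ℝ) ^ 2 * (φ.support.card * ∑ α ∈ φ.support, (f α ^ 2) ^ 2) := a3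
        _ = (φ.support.card : ℝ) ^ 3 * ∑ α ∈ φ.support, (f α ^ 2) ^ 2 := by ring
    refine h2.trans (h5.trans ?_)
    rw [map_sum, Finset.mul_sum, Finset.mul_sum]
    apply Finset.sum_le_sum
    intro α _
    rw [map_mul, MvPolynomial.eval_C, eval_GG]
    have b1 : (f α ^ 2) ^ 2 =
        η ^ 4 * ((|φ.coeff α| * kap B α) ^ 4 * (∏ i, (1 + |y i|) ^ α i) ^ 4) := by
      rw [hf]
      ring
    have b2 : η ^ 4 ≤ η := by
      have := pow_le_pow_of_le_one hη hη1 (show 1 ≤ 4 by norm_num)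
      rwa [pow_one] at this
    have b3 : (∏ i, (1 + |y i|) ^ α i) ^ 4 ≤ ∏ i : Fin r, (8 + 8 * y i ^ 4) ^ α i := by
      rw [← Finset.prod_pow]
      apply Finset.prod_le_prod
      · intro i _
        positivity
      · intro i _
        rw [← pow_mul, mul_comm (α i) 4, pow_mul]
        apply pow_le_pow_left₀ (by positivity)
        have e2 : |y i| ^ 2 = y i ^ 2 := sq_abs _
        have e4 : |y i| ^ 4 = y i ^ 4 := by
          rw [show (4 : ℕ) = 2 * 2 from rfl, pow_mul, pow_mul, sq_abs]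
        rw [← e4]
        set t := |y i|
        have ht : 0 ≤ t := abs_nonneg _
        have c1 : (1 + t) ^ 2 ≤ 2 + 2 * t ^ 2 := by nlinarith [sq_nonneg (1 - t)]
        have c2 : ((1 + t) ^ 2) ^ 2 ≤ (2 + 2 * t ^ 2) ^ 2 := pow_le_pow_left₀ (sq_nonneg _) c1 2
        nlinarith [sq_nonneg (1 - t ^ 2)]
    have hk : 0 ≤ (|φ.coeff α| * kap B α) ^ 4 := by
      have := kap_nonneg hB α
      positivity
    have hP : 0 ≤ (∏ i, (1 + |y i|) ^ α i) ^ 4 := by positivity
    have b4 : (|φ.coeff α| * kap B α) ^ 4 * (∏ i, (1 + |y i|) ^ α i) ^ 4 ≤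
        (|φ.coeff α| * kap B α) ^ 4 * ∏ i : Fin r, (8 + 8 * y i ^ 4) ^ α i :=
      mul_le_mul_of_nonneg_left b3 hk
    rw [b1]
    calc (φ.support.card : ℝ) ^ 3 *
          (η ^ 4 * ((|φ.coeff α| * kap B α) ^ 4 * (∏ i, (1 + |y i|) ^ α i) ^ 4))
        ≤ (φ.support.card : ℝ) ^ 3 *
          (η * ((|φ.coeff α| * kap B α) ^ 4 * ∏ i : Fin r, (8 + 8 * y i ^ 4) ^ α i)) := by
          apply mul_le_mul_of_nonneg_left _ (by positivity)
          exact mul_le_mul b2 b4 (mul_nonneg hk hP) hη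
      _ = η * ((φ.support.card : ℝ) ^ 3 * (|φ.coeff α| * kap B α) ^ 4 *
          ∏ i : Fin r, (8 + 8 * y i ^ 4) ^ α i) := by ring

end Pool.Agent.K1H3.DC
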